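import Mathlib
import Pool.Agent.Run7.h241.Bu4
import Pool.Agent.Results.MP_544bd1_al.TwoGeneratorsMultiplesOfFive
import Pool.Agent.Results.MP_544bd1_al.ThreeGeneratorsFive

/-!
# Local finiteness or large class

Let `u_0 = x_0` and `u_{r+1} = [u_r, x_{r+1} u_r x_{r+1}⁻¹]`, and let `d ∈ 𝓛`, for example `d = 1`.

1. Let `N_0 = 1`, and let `N_{i+1}` be generated by the elements of `G` which commute with all their
conjugates modulo `N_i`.  Modulo `N_i`, such an element lies in an abelian normal subgroup; so if `G`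
has finite exponent, all `N_i` are locally finite, by induction.  If `u_r(x_0 ^ d, x_1, …, x_r) = 1` in
`B_{r+1,n}`, then `u_{r-i}(g_0 ^ d, g_1, …) ∈ N_i` for all elements `g_j` of a group `G` of exponent
`n`; so `G / N_r` has exponent `d`, and `G` is locally finite.  The element `u_r` lies in the `r`-th
derived group of the normal closure of `x_0`, and in the term `γ_{2 ^ (r + 1) - 1}` of the lower central
series.  More generally, one can use a chain of fully invariant subgroups `C_i` of `B_{m+1,n}` for which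
the images of `C_i` in `G` are in `N_i`.

2. Let `Q = B_{k,m}` be finite.  In the Cayley graph of `Q` with respect to its `k` generators there
are `R = (k - 1) |Q| + 1` edges outside a spanning tree.  Let `H` have exponent `q`; a labelling of
these edges by elements of `H` (and of the edges of the tree by `1`) is the same as `k` elements of the
regular wreath product of `H` and `Q` above the generators of `Q`, and the labels are the values at `1`
of elements of the subgroup generated by them.  As the wreath product has exponent dividing `q m`, the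
group `B_{R,q}` is finite if `B_{k,qm}` is.

3. These two facts are combined with the earlier results `ThreeGeneratorsFive` and
`TwoGeneratorsMultiplesOfFive`.
-/

set_option autoImplicit false

namespace Pool.Agent.Results.MP_544bd1_al.ClassDichotomy

open Run7.h241.Bu
open scoped commutatorElement

universe u

/-- `n ∈ 𝓛`: every group satisfying `x ^ n = 1` is locally finite. -/
def InL (n : ℕ) : Prop := ∀ (G : Type u) [Group G], (∀ x : G, x ^ n = 1) →
  ∀ S : Set G, S.Finite → Finite (Subgroup.closure S)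

/-- The free Burnside group `B_{m,n}`: the free group of rank `m` modulo the normal closure of all
`n`-th powers. -/
abbrev B (m n : ℕ) : Type :=
  FreeGroup (Fin m) ⧸ Subgroup.normalClosure (Set.range fun w : FreeGroup (Fin m) => w ^ n)

/-- The generator `x_i` of `B_{m,n}`. -/
def gen (m n : ℕ) (i : Fin m) : B m n := QuotientGroup.mk (FreeGroup.of i)

/-- The elements `u_0 = x_0` and `u_{r+1} = [u_r, x_{r+1} u_r x_{r+1}⁻¹]` for a sequence `x` of
elements of a group. -/
def word {G : Type*} [Group G] (x : ℕ → G) : ℕ → G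
  | 0 => x 0
  | r + 1 => ⁅word x r, x (r + 1) * word x r * (x (r + 1))⁻¹⁆

/-- The element `u_r(x_0 ^ d, x_1, …, x_r)` of `B_{r+1,n}`. -/
def U (d r n : ℕ) : B (r + 1) n :=
  word (fun i => if i = 0 then gen (r + 1) n 0 ^ d else
    if h : i < r + 1 then gen (r + 1) n ⟨i, h⟩ else 1) r

/-- The chain `1 = C_0 ≤ C_1 ≤ …` of fully invariant subgroups of `B_{m+1,n}`: `C_{i+1}` is generated by
the images under endomorphisms of the elements `c ∈ ⟨x_0, …, x_{m-1}⟩` such that
`[c, x_m c x_m⁻¹] ∈ C_i`. -/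
def Chain (m n : ℕ) : ℕ → Subgroup (B (m + 1) n)
  | 0 => ⊥
  | i + 1 => Subgroup.closure {y | ∃ (α : B (m + 1) n →* B (m + 1) n) (c : B (m + 1) n),
      c ∈ Subgroup.closure (Set.range fun j : Fin m => gen (m + 1) n j.castSucc) ∧
      ⁅c, gen (m + 1) n (Fin.last m) * c * (gen (m + 1) n (Fin.last m))⁻¹⁆ ∈ Chain m n i ∧
      y = α c}

/-- Let `q = p ^ i` and `R = N + 1`. The group `B_{R,q}` is finite and nilpotent, its class is at least
`2 ^ R - 1`, the normal closure of its element `x_0 ^ (q / p)` has derived length at least `R`, its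
element `u_{R-1}(x_0 ^ (q / p), x_1, …, x_{R-1})` is not `1`, and the element `x_0 ^ (q / p)` is in no
member of the chain `C_0 ≤ C_1 ≤ …` of its subgroups. -/
def Large (N p i : ℕ) : Prop :=
  Finite (B (N + 1) (p ^ i)) ∧ Group.IsNilpotent (B (N + 1) (p ^ i)) ∧
    2 ^ (N + 1) - 1 ≤ Group.nilpotencyClass (B (N + 1) (p ^ i)) ∧
    derivedSeries (Subgroup.normalClosure {gen (N + 1) (p ^ i) 0 ^ p ^ (i - 1)}) N ≠ ⊥ ∧
    U (p ^ (i - 1)) N (p ^ i) ≠ 1 ∧
    ∀ l : ℕ, gen (N + 1) (p ^ i) 0 ^ p ^ (i - 1) ∉ Chain N (p ^ i) l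

/-- `n` is not divisible by `2 ^ m * (2 ^ m - 1) ^ 2` for any `m ≥ 2`, and there are at most two odd
primes whose square divides `n`. -/
def Admissible (n : ℕ) : Prop :=
  (∀ m : ℕ, 2 ≤ m → ¬ 2 ^ m * (2 ^ m - 1) ^ 2 ∣ n) ∧
    ∃ p q : ℕ, ∀ r : ℕ, r.Prime → r ≠ 2 → r ^ 2 ∣ n → r = p ∨ r = q

theorem word_eq {G : Type*} [Group G] (x : ℕ → G) (r : ℕ) : word x r = wd x r := by
  induction r with
  | zero => rfl
  | succ r ih => rw [word, wd, ih]

theorem U_eq (d r n : ℕ) : U d r n = Run7.h241.Bu.U d r n := word_eq _ _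

theorem chain_eq (m n i : ℕ) : Chain m n i = chain m n i := by
  induction i with
  | zero => rfl
  | succ i ih =>
    rw [Chain, chain, ih]
    rfl

theorem inL_of_dvd {n d : ℕ} (h : d ∣ n) (hL : InL.{u} n) : InL.{u} d := by
  obtain ⟨c, rfl⟩ := h
  exact fun G _ hG => hL G fun x => by rw [pow_mul, hG, one_pow]

theorem large_of_finite {N p i : ℕ} (hp : p.Prime) (h2 : Finite (B (N + 1) (p ^ i)))
    (hd : InL.{u} (p ^ (i - 1))) (hL : ¬ InL.{u} (p ^ i)) : Large N p i := by
  have hq : 1 ≤ p ^ i := Nat.pos_of_ne_zero (pow_ne_zero _ hp.ne_zero)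
  have h3 : U (p ^ (i - 1)) N (p ^ i) ≠ 1 := fun h4 =>
    hL (inL_of_U.{u} hd hq (by rwa [U_eq] at h4))
  refine ⟨h2, b_nilpotent hp, class_ge hp h2 (by rwa [U_eq] at h3), ?_, h3, fun l hl =>
    hL (inL_of_chain.{u} hd hq (by rwa [chain_eq] at hl))⟩
  rw [U_eq] at h3
  exact derived_ne h3

/-- (2) of the theorem -/
theorem large_of_not {k n p i : ℕ} (hk : 1 ≤ k) (h : Finite (B k n)) (hp : p.Prime)
    (hdv : p ^ i ∣ n) (hd : InL.{u} (p ^ (i - 1))) (hL : ¬ InL.{u} (p ^ i)) :
    Large ((k - 1) * Nat.card (B k (n / p ^ i))) p i := by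
  have h1 : p ^ i * (n / p ^ i) = n := Nat.mul_div_cancel' hdv
  exact large_of_finite hp (b_finite_wreath hk (by rw [h1]; exact h)) hd hL

theorem inL_four : InL.{u} 4 := (Pool.Agent.H32BU.inL_iff Pool.Agent.H32BU.x_LFD 4).2
  Pool.Agent.H32BU.x_L34.2

theorem inL_three : InL.{u} 3 := (Pool.Agent.H32BU.inL_iff Pool.Agent.H32BU.x_LFD 3).2
  Pool.Agent.H32BU.x_L34.1

/-- the reduction to a prime power -/
theorem dichotomy {k n : ℕ} (hk : 1 ≤ k) (h : Finite (B k n))
    (h5 : 5 ∣ n → InL.{u} 5)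
    (hc : (∀ p j : ℕ, p.Prime → p ^ j ∣ n → 5 < p ^ j → InL.{u} (p ^ j)) → InL.{u} n) :
    InL.{u} n ∨ ∃ p i : ℕ, p.Prime ∧ p ^ i ∣ n ∧ 5 < p ^ i ∧ InL.{u} (p ^ (i - 1)) ∧
      ¬ InL.{u} (p ^ i) ∧ Large ((k - 1) * Nat.card (B k (n / p ^ i))) p i := by
  classical
  by_cases hall : ∀ p j : ℕ, p.Prime → p ^ j ∣ n → 5 < p ^ j → InL.{u} (p ^ j)
  · exact Or.inl (hc hall)
  · right
    push Not at hall
    obtain ⟨p, j, hp, hj, -, hL⟩ := hall
    have hex : ∃ i, ¬ InL.{u} (p ^ i) := ⟨j, hL⟩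
    obtain ⟨i, hi⟩ : ∃ i, i = Nat.find hex := ⟨_, rfl⟩
    have hi1 : ¬ InL.{u} (p ^ i) := hi ▸ Nat.find_spec hex
    have hi2 : i ≤ j := hi ▸ Nat.find_min' hex hL
    have hi3 : ∀ l < i, InL.{u} (p ^ l) := fun l hl => by
      by_contra h1
      have := Nat.find_min' hex h1
      omega
    have h0 : i ≠ 0 := by
      rintro rfl
      exact hi1 (by rw [pow_zero]; exact inL_of_dvd (by norm_num) inL_three)
    have hin : p ^ i ∣ n := (pow_dvd_pow p hi2).trans hj
    refine ⟨p, i, hp, hin, ?_, hi3 _ (by omega), hi1,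
      large_of_not hk h hp hin (hi3 _ (by omega)) hi1⟩
    by_contra hle
    rcases eq_or_ne (p ^ i) 5 with he | he
    · rw [he] at hin hi1
      exact hi1 (h5 hin)
    · have h4 : p ^ i ≤ 4 := by omega
      have hpos : p ^ i ≠ 0 := pow_ne_zero _ hp.ne_zero
      have : ∀ m : ℕ, m ≠ 0 → m ≤ 4 → InL.{u} m := by
        intro m hm0 hm
        interval_cases m
        · exact absurd rfl hm0
        · exact inL_of_dvd (by norm_num) inL_three
        · exact inL_of_dvd (by norm_num) inL_four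
        · exact inL_three
        · exact inL_four
      exact hi1 (this _ hpos h4)

theorem adm_three {p j : ℕ} (hp : p.Prime) : Admissible (3 * p ^ j) := by
  constructor
  · intro m hm h
    have hm4 : 4 ≤ 2 ^ m := by
      calc 4 = 2 ^ 2 := rfl
        _ ≤ 2 ^ m := Nat.pow_le_pow_right (by norm_num) hm
    have h2 : p = 2 := by
      have h1 : 2 ∣ 3 * p ^ j :=
        (dvd_trans (dvd_pow_self 2 (by omega)) (dvd_mul_right _ _)).trans h
      rcases (Nat.prime_two.dvd_mul).1 h1 with h3 | h3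
      · omega
      · exact ((Nat.prime_dvd_prime_iff_eq Nat.prime_two hp).1
          (Nat.prime_two.dvd_of_dvd_pow h3)).symm
    subst h2
    have h3 : (2 ^ m - 1) ^ 2 ∣ 3 * 2 ^ j := (dvd_mul_left _ _).trans h
    have hodd : Nat.Coprime ((2 ^ m - 1) ^ 2) (2 ^ j) := by
      refine Nat.Coprime.pow _ _ ?_
      rw [Nat.coprime_comm, Nat.Prime.coprime_iff_not_dvd Nat.prime_two]
      intro h4
      have h5 : 2 ∣ 2 ^ m := dvd_pow_self 2 (by omega)
      omega
    have h4 := Nat.le_of_dvd (by norm_num) (hodd.dvd_of_dvd_mul_right h3)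
    have h5 : 3 ≤ 2 ^ m - 1 := by omega
    have h6 : 9 ≤ (2 ^ m - 1) ^ 2 := by nlinarith
    omega
  · refine ⟨p, p, fun r hr _ h => ?_⟩
    left
    by_contra hne
    have hc : Nat.Coprime (r ^ 2) (p ^ j) := Nat.Coprime.pow _ _ ((Nat.coprime_primes hr hp).2 hne)
    have h1 := Nat.le_of_dvd (by norm_num) (hc.dvd_of_dvd_mul_right h)
    have h2 := hr.two_le
    nlinarith

/-- Let `u_0 = x_0` and `u_{r+1} = [u_r, x_{r+1} u_r x_{r+1}⁻¹]`.
(1) Let `n ≥ 1` and `d ∈ 𝓛`, for example `d = 1`. If `x_0 ^ d` is in a member of the chain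
`C_0 ≤ C_1 ≤ …` of subgroups of `B_{m+1,n}`, then `n ∈ 𝓛`. It is in `C_r`, for `m = r`, if
`u_r(x_0 ^ d, x_1, …, x_r) = 1` in `B_{r+1,n}`. This holds if the normal closure of `x_0 ^ d` in
`B_{r+1,n}` is soluble of derived length at most `r`, or if `B_{r+1,n}` is nilpotent of class at most
`2 ^ (r + 1) - 2`.
(2) Let `B_{k,n}` be finite, `k ≥ 1`, and let `q = p ^ i` be a prime power dividing `n` such that
`q / p ∈ 𝓛`. Then `q ∈ 𝓛`, or for `R = (k - 1) |B_{k,n/q}| + 1` the group `B_{R,q}` is finite of class at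
least `2 ^ R - 1`, and the normal closure of `x_0 ^ (q / p)` in it has derived length at least `R`.
(3) Suppose that `B_{3,n}` is finite, and soluble or `n` has at most two prime divisors. Then `n ∈ 𝓛` or
there is a prime power `q = p ^ i > 5` dividing `n` with `q ∉ 𝓛` and `q / p ∈ 𝓛` such that, for
`R = 2 |B_{3,n/q}| + 1`, the finite group `B_{R,q}` has these properties.
(4) Suppose that `n ≠ 5` is admissible and that `B_{2,n}` is finite, and soluble or `n` has at most two
prime divisors. Then `n ∈ 𝓛` or there is a prime power `q = p ^ i > 5` dividing `n` with `q ∉ 𝓛` and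
`q / p ∈ 𝓛` such that, for `R = |B_{2,n/q}| + 1`, the finite group `B_{R,q}` has these properties.
(5) Let `q = p ^ i > 5`, where `p ≠ 3` is a prime and `q / p ∈ 𝓛` (for example `q = 7` or `q = 8`). If
`B_{2,3q}` is finite, then `3 q ∈ 𝓛`, or `B_{28,q}` is a finite group of class at least `2 ^ 28 - 1`. -/
theorem result :
    (∀ n d : ℕ, 1 ≤ n → InL.{u} d →
      (∀ m l : ℕ, gen (m + 1) n 0 ^ d ∈ Chain m n l → InL.{u} n) ∧
      (∀ r : ℕ, U d r n = 1 → gen (r + 1) n 0 ^ d ∈ Chain r n r) ∧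
      (∀ r : ℕ, derivedSeries (Subgroup.normalClosure {gen (r + 1) n 0 ^ d}) r = ⊥ →
        U d r n = 1) ∧
      (∀ r : ℕ, Group.IsNilpotent (B (r + 1) n) →
        Group.nilpotencyClass (B (r + 1) n) ≤ 2 ^ (r + 1) - 2 → U d r n = 1)) ∧
    (∀ k n p i : ℕ, 1 ≤ k → Finite (B k n) → p.Prime → p ^ i ∣ n → InL.{u} (p ^ (i - 1)) →
      (InL.{u} (p ^ i) ∨ Large ((k - 1) * Nat.card (B k (n / p ^ i))) p i)) ∧
    (∀ n : ℕ, 1 ≤ n → (n.primeFactors.card ≤ 2 ∨ Group.IsSolvable (B 3 n)) → Finite (B 3 n) →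
      (InL.{u} n ∨ ∃ p i : ℕ, p.Prime ∧ p ^ i ∣ n ∧ 5 < p ^ i ∧ InL.{u} (p ^ (i - 1)) ∧
        ¬ InL.{u} (p ^ i) ∧ Large (2 * Nat.card (B 3 (n / p ^ i))) p i)) ∧
    (∀ n : ℕ, 1 ≤ n → n ≠ 5 → Admissible n →
      (n.primeFactors.card ≤ 2 ∨ Group.IsSolvable (B 2 n)) → Finite (B 2 n) →
      (InL.{u} n ∨ ∃ p i : ℕ, p.Prime ∧ p ^ i ∣ n ∧ 5 < p ^ i ∧ InL.{u} (p ^ (i - 1)) ∧
        ¬ InL.{u} (p ^ i) ∧ Large (Nat.card (B 2 (n / p ^ i))) p i)) ∧
    (∀ p i : ℕ, p.Prime → p ≠ 3 → 5 < p ^ i → InL.{u} (p ^ (i - 1)) →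
      Finite (B 2 (3 * p ^ i)) → (InL.{u} (3 * p ^ i) ∨ Large 27 p i)) := by
  have five : ∀ n : ℕ, 1 ≤ n → n ≠ 5 → Admissible n →
      (n.primeFactors.card ≤ 2 ∨ Group.IsSolvable (B 2 n)) → Finite (B 2 n) →
      (∀ p j : ℕ, p.Prime → p ^ j ∣ n → 5 < p ^ j → InL.{u} (p ^ j)) → InL.{u} n :=
    fun n hn h5 hA hs hf hall =>
      (TwoGeneratorsMultiplesOfFive.result.{u}.1 n hn h5 hA hs).2 ⟨hall, hf⟩
  refine ⟨fun n d hn hd => ⟨fun m l h => inL_of_chain hd hn (by rwa [chain_eq] at h), fun r h => ?_,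
    fun r h => ?_, fun r hN h => ?_⟩,
    fun k n p i hk h hp hdv hd => ?_, fun n hn hs h => ?_, fun n hn h5 hA hs h => ?_,
    fun p i hp hp3 h5 hd h => ?_⟩
  · rw [U_eq] at h
    rw [chain_eq]
    exact chain_of_U h
  · rw [U_eq]
    exact U_of_derived h
  · rw [U_eq]
    refine U_of_class ?_
    rw [lcs, Subgroup.lowerCentralSeries_eq_bot_iff_nilpotencyClass_le]
    exact h
  · by_cases hL : InL.{u} (p ^ i)
    · exact Or.inl hL
    · exact Or.inr (large_of_not hk h hp hdv hd hL)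
  · refine dichotomy (k := 3) (by norm_num) h (fun hd5 => ?_) fun hall =>
      (ThreeGeneratorsFive.result.{u}.2.2.2 n hn hall hs).2 h
    exact (ThreeGeneratorsFive.result.{u}.2.2.1 5 (Or.inl rfl)).2 (b_finite_dvd h hd5)
  · have h1 := dichotomy (k := 2) (by norm_num) h (fun hd5 => ?_) (five n hn h5 hA hs h)
    · simpa using h1
    · obtain ⟨c, rfl⟩ := hd5
      exact TwoGeneratorsMultiplesOfFive.result.{u}.2.2.2 c (by omega) h
  · by_cases hL : InL.{u} (3 * p ^ i)
    · exact Or.inl hL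
    · right
      have hn : 1 ≤ 3 * p ^ i := by omega
      have hq : ¬ InL.{u} (p ^ i) := by
        intro hq
        apply hL
        refine five _ hn (by omega) (adm_three hp) (Or.inl ?_) h ?_
        · have h1 : (3 * p ^ i).primeFactors ⊆ {3, p} := by
            intro r hr
            have h2 := Nat.prime_of_mem_primeFactors hr
            rcases (h2.dvd_mul).1 (Nat.dvd_of_mem_primeFactors hr) with h3 | h3
            · simp [(Nat.prime_dvd_prime_iff_eq h2 Nat.prime_three).1 h3]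
            · simp [(Nat.prime_dvd_prime_iff_eq h2 hp).1 (h2.dvd_of_dvd_pow h3)]
          exact (Finset.card_le_card h1).trans Finset.card_le_two
        · intro r j hr hj h5
          by_cases hrp : r = p
          · subst hrp
            refine inL_of_dvd ?_ hq
            have hc : Nat.Coprime (r ^ j) 3 :=
              Nat.Coprime.pow_left _ ((Nat.coprime_primes hr Nat.prime_three).2 hp3)
            exact hc.dvd_of_dvd_mul_left hj
          · exfalso
            have hc : Nat.Coprime (r ^ j) (p ^ i) :=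
              Nat.Coprime.pow _ _ ((Nat.coprime_primes hr hp).2 hrp)
            have := Nat.le_of_dvd (by norm_num) (hc.dvd_of_dvd_mul_right hj)
            omega
      have h3 : Finite (B 2 3) := b_finite_dvd h (dvd_mul_right 3 _)
      have h27 := card_b23 h3
      have h4 := b_finite_wreath (k := 2) (q := p ^ i) (m := 3) (by norm_num)
        (by rw [mul_comm]; exact h)
      exact large_of_finite hp (b_finite_le h4 (by omega)) hd hq

end Pool.Agent.Results.MP_544bd1_al.ClassDichotomy
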