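import Pool.Agent.Run7.h676.SSh

/-!
# Local finiteness from the normal closure of one generator, for odd exponents

Proof in outline.  Write `c ^ g` for `g * c * g⁻¹`.

1. (`SSa`, `SSb`, `SSc`.)  Let `S` be a normal symmetric subset of a group such that for `x, y, z` in
`S` the conjugates of `x` by `y` and by `z` commute.  Then `S ∪ {⁅a, b⁆ | a, b ∈ S}` has the same
property, and finitely many elements of `S` generate a nilpotent group: for the elements `h` of the
closure of `S` under commutators and the smallest words `w` with `⁅h, a_w₁, …⁆ ≠ 1`, regular words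
act like commutators, which contradicts the word lemma used in Kostrikin's theorem.
2. (`SSd`.)  Let `a` be an element of odd order of a periodic group such that `⁅a, a ^ g⁆` commutes
with `a` for all `g`.  For powers `y`, `z` of conjugates of `a` the commutator
`D = ⁅a ^ y, a ^ z⁆` satisfies `D ^ 8 = 1`, since `D (y, z)` is bilinear in the exponents of `y` and
`z` and `D (y ^ z, z) = (D (y, z)⁻¹) ^ (z * y)`.  Hence 1 applies to the powers of the conjugates of
`a`, and `a` lies in the locally finite radical.
3. (`SSe`.)  In the quotient by the radical put `c 0 = x`, `c (j + 1) = ⁅⁅c j, (c j) ^ y⁆, c j⁆` with a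
new element `y` in each step.  If `c m = 1` for all choices then, by 2, `c (m - 1) = 1` for all
choices, and so on, so that `x = 1`.
-/

set_option autoImplicit false

namespace Pool.Agent.Results.MP_544bd1_al.NormalClosureOddExponent

open scoped commutatorElement

universe u

/-- `n ∈ 𝓛`: every group satisfying `x ^ n = 1` is locally finite. -/
def InL (n : ℕ) : Prop := ∀ (G : Type u) [Group G], (∀ x : G, x ^ n = 1) →
  ∀ S : Set G, S.Finite → Finite (Subgroup.closure S)

/-- The free Burnside group `B_{m,n}`: the free group of rank `m` modulo the normal closure of all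
`n`-th powers. -/
abbrev B (m n : ℕ) : Type :=
  FreeGroup (Fin m) ⧸ Subgroup.normalClosure (Set.range fun w : FreeGroup (Fin m) => w ^ n)

/-- The normal closure of the first free generator in `B_{m+1,n}`. -/
def N (m n : ℕ) : Subgroup (B (m + 1) n) :=
  Subgroup.normalClosure {QuotientGroup.mk (FreeGroup.of (0 : Fin (m + 1)))}

/-- The iterated third terms of the lower central series: `T A 0 = A` and
`T A (j + 1) = ⁅⁅T A j, T A j⁆, T A j⁆`. One has `T A j = ⊥` if and only if `A` has a normal series
of length `j` whose factors are nilpotent of class at most two. -/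
def T {G : Type u} [Group G] (A : Subgroup G) : ℕ → Subgroup G
  | 0 => A
  | j + 1 => ⁅⁅T A j, T A j⁆, T A j⁆

theorem T_eq {G : Type u} [Group G] (A : Subgroup G) (j : ℕ) :
    T A j = Run7.h676.SS.T A j := by
  induction j with
  | zero => rfl
  | succ j ih => rw [T, ih, Run7.h676.SS.T_succ]

theorem conv {G : Type u} [Group G] (h : Run7.h676.LF (⊤ : Subgroup G)) (S : Set G)
    (hS : S.Finite) : Finite (Subgroup.closure S) := by
  have h1 := h hS.toFinset (fun _ _ => Subgroup.mem_top _)
  rw [hS.coe_toFinset] at h1
  exact h1

/-- Let `m` be a natural number and `n` odd.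
(1) If the normal closure of a free generator of `B_{m+1,n}` has a series of length `m` with factors
of class at most two (`T _ m = ⊥`), then `n ∈ 𝓛`.
(2) In particular `n ∈ 𝓛` if this normal closure is nilpotent of class less than `3 ^ m`.
(3) Let `G` be a group whose elements have odd orders, such that for all `x, y_1, …, y_m` in `G` the
normal closure `A` of `x` in `⟨x, y_1, …, y_m⟩` satisfies `T A m = ⊥`. Then `G` is locally finite.
-/
theorem result :
    (∀ n m : ℕ, Odd n → T (N m n) m = ⊥ → InL.{u} n) ∧
    (∀ n m : ℕ, Odd n → (N m n).lowerCentralSeries (3 ^ m - 1) = ⊥ → InL.{u} n) ∧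
    (∀ (G : Type u) [Group G] (m : ℕ), (∀ g : G, ∃ k : ℕ, Odd k ∧ g ^ k = 1) →
      (∀ (H : Subgroup G) (x : H) (y : Fin m → H), Subgroup.closure ({x} ∪ Set.range y) = ⊤ →
        T (Subgroup.normalClosure {x}) m = ⊥) →
      ∀ S : Set G, S.Finite → Finite (Subgroup.closure S)) := by
  have h1 : ∀ n m : ℕ, Odd n → T (N m n) m = ⊥ → InL.{u} n := by
    intro n m hn hT G _ hG
    rw [T_eq] at hT
    exact conv (Run7.h676.SS.LF_of_W (fun g => ⟨n, hn, hG g⟩) m
      (fun x l hl => Run7.h676.SS.law_of_free m n (Run7.h676.SS.W_free m n hT) hG x l hl))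
  refine ⟨h1, fun n m hn hN => h1 n m hn ?_, ?_⟩
  · rw [T_eq]
    exact eq_bot_iff.2 ((Run7.h676.SS.T_le (N m n) m).trans hN.le)
  · intro G _ m ho hH
    refine conv (Run7.h676.SS.LF_of_W ho m fun x l hl => ?_)
    subst hl
    let H := Subgroup.closure ({x} ∪ {y | y ∈ l})
    let x' : H := ⟨x, Subgroup.subset_closure (by simp)⟩
    let y' : Fin l.length → H := fun i => ⟨l.get i, Subgroup.subset_closure
      (Or.inr (List.get_mem l i))⟩
    have hcl : Subgroup.closure ({x'} ∪ Set.range y') = ⊤ := by
      have e : ({x'} ∪ Set.range y') = ((↑) : H → G) ⁻¹' ({x} ∪ {y | y ∈ l}) := by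
        ext z
        constructor
        · rintro (hz | ⟨i, rfl⟩)
          · rw [Set.mem_singleton_iff] at hz
            subst hz
            exact Or.inl rfl
          · exact Or.inr (List.get_mem l i)
        · rintro (hz | hz)
          · exact Or.inl (Subtype.ext hz)
          · obtain ⟨i, hi⟩ := List.get_of_mem (show (z : G) ∈ l from hz)
            exact Or.inr ⟨i, Subtype.ext hi⟩
      rw [e]
      exact Subgroup.closure_closure_coe_preimage
    have hT := hH H x' y' hcl
    rw [T_eq] at hT
    have h := Run7.h676.SS.W_mem (Subgroup.normalClosure {x'})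
      (Subgroup.subset_normalClosure (Set.mem_singleton _)) (List.ofFn y')
    rw [List.length_ofFn, hT, Subgroup.mem_bot] at h
    have h2 := congrArg H.subtype h
    rw [Run7.h676.SS.W_map, map_one, List.map_ofFn] at h2
    have e : List.ofFn (H.subtype ∘ y') = l := List.ofFn_get l
    rwa [e] at h2

end Pool.Agent.Results.MP_544bd1_al.NormalClosureOddExponent
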