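import Mathlib
import Pool.Agent.Run7.h806.RL.Wr

/-!
# Local finiteness and the elements of `r`-power order, for one prime `r`

Let `n = r ^ α * m`, `r` a prime not dividing `m`, and suppose that `q ^ c ≠ r ^ b - 1` for all primes
`q` dividing `m` and all `1 ≤ b ≤ α`, `1 ≤ c`.  Then the step from `m` to `n` only needs groups
generated by two or three elements, of which all but one have `r`-power order.

Proof in outline.  Let `G` have exponent dividing `n`, and let `O_{r'}(G) = 1`.  Let `S` be the set of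
the powers `x ^ r ^ (α - 1)`, `x ^ r ^ α = 1`.  By the theorem of Hall and Higman (library
`Pool.Agent.TH69.OgC`), such an element lies in `O_{r',r}(E)` for all finite soluble subgroups `E`
containing `x`.

First version.  Let `s, t` be in `S` such that `s⁻¹ t` is an `r'`-element.  If `z` is an `r'`-element,
then, in `E = ⟨x, y, z⟩`, `s` and `t` are equal modulo `O_{r'}(E)`, so `s⁻¹ t z` is an `r'`-element.
Hence `s⁻¹ t` is in `O_{r'}(G) = 1` and `s = t`.  So `s` centralises `O_{r'}(⟨s, z⟩)` for all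
`r`-elements `z`, hence it lies in `O_r(⟨s, z⟩)`, and `s z` is an `r`-element.  So `S` is contained in
`O_r(G)`, and `G / O_r(G)` has exponent dividing `n / r`.

Second version.  Write `s ~ t` if `s⁻¹ t` is an `r'`-element.  From the subgroups generated by three
elements of `S` one sees that this is an equivalence relation on `S` and that `s⁻¹ t` fixes all classes
if `s ~ t`; let `K` be the normal subgroup of the elements fixing all classes.  An `r'`-element `z` of
`K` lies in `O_{r'}(⟨s, z⟩)` for all `s` in `S`.  Let `s ~ t` and `y = t z`.  The `r`-part of `y` is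
conjugate to `t` in `⟨t, z⟩`, so it is in `S` and equivalent to `s`; now in `⟨s, y⟩` the elements `s`
and `y` are equal modulo `O_{r'}`, and `s⁻¹ t z` is an `r'`-element.  So `s⁻¹ t` lies in the largest
normal `r'`-subgroup of `K`, which is trivial, and one continues as before.  If `n = 2 m`, two
generators suffice, because `⟨s t, t u⟩` has index at most two in `⟨s, t, u⟩` for involutions
`s, t, u`, and `u` is equivalent to `s u s`.
-/

set_option autoImplicit false

namespace Pool.Agent.Results.MP_544bd1_al.OnePrime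

open Run7.h806.RL Pool.Agent.H32BU

universe u

/-- `n ∈ 𝓛`: every group satisfying `x ^ n = 1` is locally finite. -/
def InL (n : ℕ) : Prop := ∀ (G : Type u) [Group G], (∀ x : G, x ^ n = 1) →
  ∀ S : Set G, S.Finite → Finite (Subgroup.closure S)

/-- The largest group of exponent dividing `n` with generators `x_i`, `i < k`, such that
`x_i ^ e i = 1`: a quotient of the free Burnside group `B_{k,n}`. (The value `e i = 0` means that there
is no condition on `x_i`.) -/
abbrev P (k n : ℕ) (e : Fin k → ℕ) : Type :=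
  FreeGroup (Fin k) ⧸ Subgroup.normalClosure
    ((Set.range fun w : FreeGroup (Fin k) => w ^ n) ∪ Set.range fun i => FreeGroup.of i ^ e i)

/-- No power of a prime divisor of `m` (with positive exponent) is of the form `r ^ b - 1` with
`1 ≤ b ≤ α`. -/
def Unexceptional (r α m : ℕ) : Prop :=
  ∀ q : ℕ, q.Prime → q ∣ m → ∀ b, 1 ≤ b → b ≤ α → ∀ c, 1 ≤ c → q ^ c ≠ r ^ b - 1

/-- `K` is soluble, or it is finite and `n` has at most two prime divisors. -/
def Good (n : ℕ) (K : Type u) [Group K] : Prop :=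
  Group.IsSolvable K ∨ n.primeFactors.card ≤ 2 ∧ Finite K

/-- `G` has a normal series `1 = N 0 ≤ N 1 ≤ … ≤ N (2 α + 1) = G` whose factors have exponents dividing
`m` and `R`, alternately. -/
def HasSeries (R m α : ℕ) (G : Type u) [Group G] : Prop :=
  ∃ N : ℕ → Subgroup G, N 0 = ⊥ ∧ N (2 * α + 1) = ⊤ ∧ ∀ i, (N i).Normal ∧ N i ≤ N (i + 1) ∧
    (Even i → ∀ x ∈ N (i + 1), x ^ m ∈ N i) ∧ (Odd i → ∀ x ∈ N (i + 1), x ^ R ∈ N i)

theorem inL (n : ℕ) : InL.{u} n ↔ LocFin n := inL_iff x_LFD n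

theorem sol_of_good {n : ℕ} (hn : 1 ≤ n) {K : Type u} [Group K] (hK : ∀ x : K, x ^ n = 1)
    (h : Good n K) : Group.IsSolvable K := by
  rcases h with h | ⟨h1, h2⟩
  · exact h
  · obtain ⟨K', _, _, ⟨e⟩⟩ := Finite.exists_type_univ_nonempty_mulEquiv.{u, 0} K
    have h3 : Group.IsSolvable K' := sol_two_primes hn h1 fun x => by
      obtain ⟨y, rfl⟩ := e.surjective x
      rw [← map_pow, hK, map_one]
    exact Group.isSolvable_of_surjective (f := e.symm.toMonoidHom) e.symm.surjective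

theorem good_sol {n : ℕ} {K : Type} [Group K] (h : n.primeFactors.card ≤ 2 ∨ Group.IsSolvable K)
    (hn : 1 ≤ n) (hK : ∀ x : K, x ^ n = 1) (hf : Finite K) : Group.IsSolvable K :=
  sol_of_good hn hK (h.elim (fun h => Or.inr ⟨h, hf⟩) Or.inl)

section

variable {r α m : ℕ}

theorem hyB (hr : r.Prime) (hm : ¬ r ∣ m) {G : Type u} [Group G]
    (hG : ∀ x : G, x ^ (r ^ α * m) = 1)
    (h : ∀ s t z : G, s ^ r ^ α = 1 → t ^ r ^ α = 1 → z ^ m = 1 →
      Good (r ^ α * m) (Subgroup.closure {s, t, z})) : HyB r α m G :=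
  ⟨hG, fun s t z hs ht hz => sol_of_good (pos_of hr hm)
    (fun x => Subtype.ext (by rw [Subgroup.coe_pow, hG, Subgroup.coe_one])) (h s t z hs ht hz)⟩

theorem lf (hr : r.Prime) (hm : ¬ r ∣ m) (hex : Unexceptional r α m) {G : Type u} [Group G]
    (h : HyB r α m G) (h1 : InL.{u} (r ^ α)) (h2 : InL.{u} m) (S : Set G) (hS : S.Finite) :
    Finite (Subgroup.closure S) := by
  refine Pool.Agent.W629.finite_closure_u S hS fun Q _ f hf => ?_
  refine HyB.lf hr hm ((inL m).1 h2) α hex ((inL _).1 h1) Q ⟨fun x => hf ?_, ?_⟩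
  · rw [map_pow, map_one]
    exact h.exp _
  · intro s t z hs ht hz
    have h3 := h.three (f s) (f t) (f z) (by rw [← map_pow, hs, map_one])
      (by rw [← map_pow, ht, map_one]) (by rw [← map_pow, hz, map_one])
    rw [← closure_map_triple] at h3
    exact Group.isSolvable_of_surjective
      (f := ((Subgroup.closure {s, t, z}).equivMapOfInjective f hf).symm.toMonoidHom)
      ((Subgroup.closure {s, t, z}).equivMapOfInjective f hf).symm.surjective

theorem crit1 (hr : r.Prime) (hm : ¬ r ∣ m) (hex : Unexceptional r α m)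
    (hs : (r ^ α * m).primeFactors.card ≤ 2 ∨
      Group.IsSolvable (P 3 (r ^ α * m) ![r ^ α, r ^ α, m])) :
    InL.{u} (r ^ α * m) ↔ InL.{u} (r ^ α) ∧ InL.{u} m ∧
      Finite (P 3 (r ^ α * m) ![r ^ α, r ^ α, m]) := by
  rw [inL, inL, inL]
  exact critB hr hm hex hs

theorem crit3 (hr : r.Prime) (hm : ¬ r ∣ m) (hex : Unexceptional r α m)
    (hs : (r ^ α * m).primeFactors.card ≤ 2 ∨ Group.IsSolvable (P 2 (r ^ α * m) ![0, r ^ α]) ∧
      Group.IsSolvable (P 3 (r ^ α * m) ![r, r, r])) :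
    InL.{u} (r ^ α * m) ↔ InL.{u} (r ^ α) ∧ InL.{u} m ∧
      Finite (P 2 (r ^ α * m) ![0, r ^ α]) ∧ Finite (P 3 (r ^ α * m) ![r, r, r]) := by
  rw [inL, inL, inL]
  exact crit hr hm hex hs

end

/-- Let `r` be a prime not dividing `m`, `n = r ^ α * m` and `R = r ^ α`, and let `(r, α, m)` be
unexceptional.
(0) This is the case if `r` and `m` are odd, if `r = 2` and `α ≤ 1`, and if `m = 5`.
(1) Let `G` be a group of exponent dividing `n` in which `⟨s, t, z⟩` is `Good` whenever
`s ^ R = t ^ R = z ^ m = 1`. Then `G` has a normal series of length `2 α + 1` whose factors have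
exponents dividing `m` and `R`, alternately. If `R, m ∈ 𝓛`, then `G` is locally finite.
(2) Let `n` have at most two prime divisors, or let the group `P 3 n ![R, R, m]` be soluble. Then
`n ∈ 𝓛` if and only if `R, m ∈ 𝓛` and `P 3 n ![R, R, m]` is finite.
(3) Let `n` have at most two prime divisors, or let the groups `P 2 n ![0, R]` and `P 3 n ![r, r, r]`
be soluble. Then `n ∈ 𝓛` if and only if `R, m ∈ 𝓛` and these two groups are finite.
(4) If `n = 2 m`, this also holds with `P 2 n ![m, m]` in place of `P 3 n ![2, 2, 2]`.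
(5) If `P 2 (d n) ![0, R]` is finite for some `d ≥ 2`, and soluble or `n` has at most two prime
divisors, then `n ∈ 𝓛` if and only if `R, m ∈ 𝓛`.
(6) Let `r ≠ 5` and `α ≥ 1`. Then `5 R ∈ 𝓛` if and only if `R ∈ 𝓛` and `P 3 (5 R) ![R, R, 5]` is
finite, and also if and only if `R ∈ 𝓛` and `P 2 (5 R) ![0, R]` and `P 3 (5 R) ![r, r, r]` are finite.
(7) So `10`, `15` or `20` is in `𝓛` if and only if `P 3 10 ![2, 2, 5]`, `P 3 15 ![3, 3, 5]` or
`P 3 20 ![4, 4, 5]` is finite; and `10 ∈ 𝓛` if and only if `P 2 10 ![0, 2]` and `P 2 10 ![5, 5]` are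
finite. -/
theorem result :
    (∀ r α m : ℕ, r.Prime → (Odd r ∧ Odd m ∨ r = 2 ∧ α ≤ 1 ∨ m = 5) → Unexceptional r α m) ∧
    (∀ r α m : ℕ, r.Prime → ¬ r ∣ m → Unexceptional r α m →
      (∀ (G : Type u) [Group G], (∀ x : G, x ^ (r ^ α * m) = 1) →
        (∀ s t z : G, s ^ r ^ α = 1 → t ^ r ^ α = 1 → z ^ m = 1 →
          Good (r ^ α * m) (Subgroup.closure {s, t, z})) →
        HasSeries (r ^ α) m α G ∧
        (InL.{u} (r ^ α) → InL.{u} m → ∀ S : Set G, S.Finite → Finite (Subgroup.closure S))) ∧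
      ((r ^ α * m).primeFactors.card ≤ 2 ∨
          Group.IsSolvable (P 3 (r ^ α * m) ![r ^ α, r ^ α, m]) →
        (InL.{u} (r ^ α * m) ↔ InL.{u} (r ^ α) ∧ InL.{u} m ∧
          Finite (P 3 (r ^ α * m) ![r ^ α, r ^ α, m]))) ∧
      ((r ^ α * m).primeFactors.card ≤ 2 ∨ Group.IsSolvable (P 2 (r ^ α * m) ![0, r ^ α]) ∧
          Group.IsSolvable (P 3 (r ^ α * m) ![r, r, r]) →
        (InL.{u} (r ^ α * m) ↔ InL.{u} (r ^ α) ∧ InL.{u} m ∧
          Finite (P 2 (r ^ α * m) ![0, r ^ α]) ∧ Finite (P 3 (r ^ α * m) ![r, r, r]))) ∧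
      (∀ d : ℕ, 2 ≤ d → Finite (P 2 (d * (r ^ α * m)) ![0, r ^ α]) →
        ((r ^ α * m).primeFactors.card ≤ 2 ∨
          Group.IsSolvable (P 2 (d * (r ^ α * m)) ![0, r ^ α])) →
        (InL.{u} (r ^ α * m) ↔ InL.{u} (r ^ α) ∧ InL.{u} m))) ∧
    (∀ m : ℕ, Odd m → ((2 * m).primeFactors.card ≤ 2 ∨
        Group.IsSolvable (P 2 (2 * m) ![0, 2]) ∧ Group.IsSolvable (P 2 (2 * m) ![m, m])) →
      (InL.{u} (2 * m) ↔ InL.{u} m ∧ Finite (P 2 (2 * m) ![0, 2]) ∧
        Finite (P 2 (2 * m) ![m, m]))) ∧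
    (∀ r α : ℕ, r.Prime → r ≠ 5 → 1 ≤ α →
      (InL.{u} (r ^ α * 5) ↔ InL.{u} (r ^ α) ∧
        Finite (P 3 (r ^ α * 5) ![r ^ α, r ^ α, 5])) ∧
      (InL.{u} (r ^ α * 5) ↔ InL.{u} (r ^ α) ∧ Finite (P 2 (r ^ α * 5) ![0, r ^ α]) ∧
        Finite (P 3 (r ^ α * 5) ![r, r, r]))) ∧
    (InL.{u} 10 ↔ Finite (P 3 10 ![2, 2, 5])) ∧
    (InL.{u} 15 ↔ Finite (P 3 15 ![3, 3, 5])) ∧
    (InL.{u} 20 ↔ Finite (P 3 20 ![4, 4, 5])) ∧
    (InL.{u} 10 ↔ Finite (P 2 10 ![0, 2]) ∧ Finite (P 2 10 ![5, 5])) := by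
  have hL2 : LocFin 2 := x_LFD.1 4 2 (by norm_num) x_L34.2
  refine ⟨?_, ?_, ?_, ?_, ?_, ?_, ?_, ?_⟩
  · rintro r α m hr (⟨h1, h2⟩ | ⟨rfl, h⟩ | rfl)
    · exact gen_odd h1 h2
    · exact gen_two' h
    · exact gen_five hr
  · intro r α m hr hm hex
    refine ⟨fun G _ hG h => ⟨HyB.series hr hm α hex G (hyB hr hm hG h),
      fun h1 h2 S hS => lf hr hm hex (hyB hr hm hG h) h1 h2 S hS⟩, fun hs => crit1 hr hm hex hs,
      fun hs => crit3 hr hm hex hs, fun d hd h hs => ?_⟩
    rw [inL, inL, inL]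
    exact crit_mul hd hr hm hex hs h
  · intro m hm hs
    rw [inL, inL]
    exact crit2 (by
      rw [← even_iff_two_dvd]
      exact Nat.not_even_iff_odd.2 hm) hs
  · intro r α hr hr5 hα
    rw [inL, inL]
    exact crit_five hr hr5 hα
  · rw [inL]
    have h := (crit_five (r := 2) (α := 1) Nat.prime_two (by norm_num) le_rfl).1
    rw [pow_one] at h
    norm_num only [Nat.reduceMul] at h
    rw [h]
    exact ⟨fun h => h.2, fun h => ⟨hL2, h⟩⟩
  · rw [inL]
    have h := (crit_five (r := 3) (α := 1) Nat.prime_three (by norm_num) le_rfl).1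
    rw [pow_one] at h
    norm_num only [Nat.reduceMul] at h
    rw [h]
    exact ⟨fun h => h.2, fun h => ⟨x_L34.1, h⟩⟩
  · rw [inL]
    have h := (crit_five (r := 2) (α := 2) Nat.prime_two (by norm_num) (by norm_num)).1
    norm_num only [Nat.reduceMul, Nat.reducePow] at h
    rw [h]
    exact ⟨fun h => h.2, fun h => ⟨x_L34.2, h⟩⟩
  · rw [inL]
    exact crit_ten

end Pool.Agent.Results.MP_544bd1_al.OnePrime
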