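import Pool.Agent.Run7.h676.PolyR
import Pool.Agent.Y50.FE.Uni

/-!
# Groups of prime power exponent: bounds for the class of the subgroups with few generators

Proof in outline.  `L i` is the term `γ_(i+1)` of the lower central series, `c ^ g = g * c * g⁻¹`.

1. (`PolyF`, `PolyT`.)  The sequences with values in a nilpotent group all of whose `j`-th
differences lie in the `j`-th term of a filtration form a group (Lazard, Leibman).  Applied twice,
this gives Taylor expansions in two variables: `⁅x ^ n, z ^ m⁆` is the product over `i, j ≥ 1`, in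
lexicographic order, of `c i j ^ (n.choose i * m.choose j)` with `c i j ∈ γ_(i+j)`.
2. (`PolyL`.)  Let the group have exponent `p ^ (k + 1)`, `k ≥ 1`, and class less than `2 * p`.  For
`n = p ^ (k + 1)` all factors with `i ≠ p` are trivial, so that `c p j ^ p ^ k = 1` for all `j`;
similarly `c i p ^ p ^ k = 1`.  Hence all factors are trivial for `n = m = p ^ k`, that is,
`⁅x ^ p ^ k, z ^ p ^ k⁆ = 1`.
3. (`PolyN`.)  For every group of exponent `p ^ (k + 1)`, `k ≥ 1`, and `a = x ^ p ^ k` it follows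
that `F = ⁅a, a ^ y⁆ ∈ L (2 * p)`, since the subgroup `⟨x, x ^ y⟩` has a faster lower central series.
4. (`PolyM`, `PolyN`.)  Modulo `L (3 * p)` the group `L (2 * p)` is abelian, and the conjugation
`σ` by `x ^ y` satisfies `(σ - 1) ^ p = 0` on `F`.  As `(a ^ y) ^ p = 1`, the sum of the
`σ ^ (i * p ^ k)`, `0 ≤ i < p`, annihilates `F`, and this sum is `p * (1 + (σ - 1) * w)` modulo
`(σ - 1) ^ p`, so that `p * F = 0`.  Therefore `F` commutes with `x ^ p ^ k` modulo `L (3 * p)`, that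
is, `⁅⁅a, a ^ y⁆, a⁆ ∈ L (3 * p)`.
5. (`PolyQ`.)  Put `w_0 = a`, `w_(j+1) = ⁅⁅w_j, w_j ^ y⁆, w_j⁆` with a new element `y` in each step.
Then `w_m` lies in the term `c p m` of the lower central series, so that `w_m = 1`.  In the quotient
by the locally finite radical there are no nontrivial elements `w` such that `⁅w, w ^ y⁆` commutes
with `w` for all `y` (`SSa`–`SSe`, see `NormalClosureOddExponent`), and `w_0 = 1` follows.
6. (`SSg`.)  For `p = 2` and exponent `2 ^ (k + 1)`, `k ≥ 2`, the commutator `⁅z, z ^ y⁆` with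
`z = x ^ 2 ^ k` lies in `L 8` (`Eight`), and one uses `w_(j+1) = ⁅w_j, w_j ^ y⁆`.
-/

set_option autoImplicit false

namespace Pool.Agent.Results.MP_544bd1_al.PrimePowerClassBounds

open Run7.h676 Run7.h676.SS Run7.h676.PM

universe u

/-- `n ∈ 𝓛`: every group satisfying `x ^ n = 1` is locally finite. -/
def InL (n : ℕ) : Prop := ∀ (G : Type u) [Group G], (∀ x : G, x ^ n = 1) →
  ∀ S : Set G, S.Finite → Finite (Subgroup.closure S)

/-- The free Burnside group `B_{m,n}`: the free group of rank `m` modulo the normal closure of all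
`n`-th powers. -/
abbrev B (m n : ℕ) : Type :=
  FreeGroup (Fin m) ⧸ Subgroup.normalClosure (Set.range fun w : FreeGroup (Fin m) => w ^ n)

/-- Every subgroup of `G` generated by `r` elements is nilpotent of class at most `c`. -/
def ClassBound (G : Type u) [Group G] (r c : ℕ) : Prop :=
  ∀ f : Fin r → G, (Subgroup.closure (Set.range f)).lowerCentralSeries c = ⊥

theorem bound_eq (p m : ℕ) :
    ((6 * p + 3) * 3 ^ (m - 1) - 3) / 2 = cb (3 * p) (m - 1) := by
  have h := cb_eq (3 * p) (m - 1)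
  have e : 2 * (3 * p) + 3 = 6 * p + 3 := by ring
  rw [e] at h
  omega

theorem conv {G : Type u} [Group G] (h : LF (⊤ : Subgroup G)) (S : Set G) (hS : S.Finite) :
    Finite (Subgroup.closure S) := by
  have h1 := h hS.toFinset (fun _ _ => Subgroup.mem_top _)
  rw [hS.coe_toFinset] at h1
  exact h1

theorem LF_of_all {G : Type u} [Group G]
    (h : ∀ S : Set G, S.Finite → Finite (Subgroup.closure S)) : LF (⊤ : Subgroup G) :=
  fun s _ => h s s.finite_toSet

theorem LF_of_rad {G : Type u} [Group G] (h : LF (⊤ : Subgroup (G ⧸ rad G))) :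
    LF (⊤ : Subgroup G) := by
  have h1 := rad_quot _ inferInstance h
  refine LF_top_of_quot fun q => ?_
  have h3 : q ∈ (⊤ : Subgroup (G ⧸ rad G)) := Subgroup.mem_top q
  rw [h1] at h3
  exact Subgroup.mem_bot.1 h3

theorem quot_exp {G : Type u} [Group G] {p : ℕ} (h : ∀ g : G, g ^ p ∈ rad G) (q : G ⧸ rad G) :
    q ^ p = 1 := by
  obtain ⟨g, rfl⟩ := QuotientGroup.mk_surjective q
  rw [← QuotientGroup.mk_pow]
  exact (QuotientGroup.eq_one_iff _).2 (h g)

theorem pow_mem_rad {p m : ℕ} (hp : p.Prime) (h2 : p ≠ 2) (hm : 1 ≤ m) {G : Type u} [Group G]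
    (hG : ∀ g : G, ∃ k : ℕ, g ^ p ^ k = 1)
    (hc : ClassBound G (m + 1) (((6 * p + 3) * 3 ^ (m - 1) - 3) / 2)) (g : G) : g ^ p ∈ rad G := by
  rw [bound_eq p m] at hc
  obtain ⟨t, rfl⟩ := Nat.exists_eq_add_of_le' hm
  rw [Nat.add_sub_cancel] at hc
  exact exp_p hp h2 t (GenCls.cls hc) hG g

theorem five {G : Type u} [Group G] (hG : ∀ g : G, g ^ 5 ∈ rad G)
    (h3 : ∀ x y z : G, Finite (Subgroup.closure {x, y, z})) : LF (⊤ : Subgroup G) := by
  refine LF_of_rad (LF_of_all fun S hS => ?_)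
  refine Pool.Agent.Y50.FE.main5_u (G ⧸ rad G) (quot_exp hG) (fun a b c => ?_) S hS
  obtain ⟨x, rfl⟩ := QuotientGroup.mk'_surjective (rad G) a
  obtain ⟨y, rfl⟩ := QuotientGroup.mk'_surjective (rad G) b
  obtain ⟨z, rfl⟩ := QuotientGroup.mk'_surjective (rad G) c
  have e : Subgroup.closure ({QuotientGroup.mk' (rad G) x, QuotientGroup.mk' (rad G) y,
      QuotientGroup.mk' (rad G) z} : Set (G ⧸ rad G)) =
      (Subgroup.closure ({x, y, z} : Set G)).map (QuotientGroup.mk' (rad G)) := by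
    rw [MonoidHom.map_closure, Set.image_insert_eq, Set.image_pair]
  rw [e]
  have := h3 x y z
  have hs : Set.Finite ((Subgroup.closure ({x, y, z} : Set G) : Set G)) := Set.toFinite _
  exact (hs.image (QuotientGroup.mk' (rad G))).to_subtype

theorem three_fin {G : Type u} [Group G] {m c : ℕ} (hm : 2 ≤ m) (hc : ClassBound G (m + 1) c)
    (ht : Per G) (x y z : G) : Finite (Subgroup.closure {x, y, z}) := by
  have h1 : GenCls G 3 c := GenCls.mono (s := m + 1) hc (by omega) (by omega)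
  have h2 := h1.fin ht ![x, y, z]
  have e : Set.range ![x, y, z] = {x, y, z} := by
    rw [Matrix.range_cons, Matrix.range_cons, Matrix.range_cons, Matrix.range_empty,
      Set.union_empty]
    rfl
  rwa [e] at h2

theorem per_of {G : Type u} [Group G] {p : ℕ} (hp : 1 ≤ p) (hG : ∀ g : G, ∃ k : ℕ, g ^ p ^ k = 1) :
    Per G := fun g => by
  obtain ⟨k, hk⟩ := hG g
  exact ⟨p ^ k, Nat.one_le_pow _ _ hp, hk⟩

/-- (1) Let `p` be an odd prime, `m ≥ 1` and `c = ((6 * p + 3) * 3 ^ (m - 1) - 3) / 2`, and let `G`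
be a group in which the order of every element is a power of `p`, and whose subgroups generated by
`m + 1` elements are nilpotent of class at most `c`. Then `G` has a locally finite normal subgroup
`R` such that `g ^ p ∈ R` for all `g`, and if `p ∈ 𝓛` then `G` is locally finite.
(2) In particular, if `B_{m+1,p^k}`, `k ≥ 1`, is nilpotent of class at most `c`, then `p ^ k ∈ 𝓛` if
and only if `p ∈ 𝓛`.
(3) A group whose elements have orders powers of `5` is locally finite if its 3-generator subgroups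
are finite and its 2-generator subgroups are nilpotent of class at most `15`; and also if its
subgroups generated by `m + 1` elements are nilpotent of class at most `(33 * 3 ^ (m - 1) - 3) / 2`
for some `m ≥ 2`.
(4) A group whose elements have orders powers of `2` is locally finite if its subgroups generated by
`m + 1` elements are nilpotent of class at most `10 * 2 ^ (m - 1) - 1` for some `m ≥ 2`.
(5) Consequently `2 ^ k`, `3 ^ k`, `5 ^ k` is in `𝓛` if `B_{m+1,2^k}`, `B_{m+1,3^k}`, `B_{m+1,5^k}`,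
respectively, is nilpotent of class at most `10 * 2 ^ (m - 1) - 1`, `(21 * 3 ^ (m - 1) - 3) / 2`,
`(33 * 3 ^ (m - 1) - 3) / 2` for some `m ≥ 2`. -/
theorem result :
    (∀ p m : ℕ, p.Prime → p ≠ 2 → 1 ≤ m → ∀ (G : Type u) [Group G],
      (∀ g : G, ∃ k : ℕ, g ^ p ^ k = 1) →
      ClassBound G (m + 1) (((6 * p + 3) * 3 ^ (m - 1) - 3) / 2) →
      (∃ R : Subgroup G, R.Normal ∧
        (∀ S : Set G, S.Finite → S ⊆ R → Finite (Subgroup.closure S)) ∧ ∀ g : G, g ^ p ∈ R) ∧
      (InL.{u} p → ∀ S : Set G, S.Finite → Finite (Subgroup.closure S))) ∧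
    (∀ p k m : ℕ, p.Prime → p ≠ 2 → 1 ≤ k → 1 ≤ m →
      (⊤ : Subgroup (B (m + 1) (p ^ k))).lowerCentralSeries
        (((6 * p + 3) * 3 ^ (m - 1) - 3) / 2) = ⊥ → (InL.{u} (p ^ k) ↔ InL.{u} p)) ∧
    (∀ (G : Type u) [Group G], (∀ g : G, ∃ k : ℕ, g ^ 5 ^ k = 1) →
      (((∀ x y z : G, Finite (Subgroup.closure {x, y, z})) ∧ ClassBound G 2 15) ∨
        ∃ m : ℕ, 2 ≤ m ∧ ClassBound G (m + 1) ((33 * 3 ^ (m - 1) - 3) / 2)) →
      ∀ S : Set G, S.Finite → Finite (Subgroup.closure S)) ∧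
    (∀ (G : Type u) [Group G], (∀ g : G, ∃ k : ℕ, g ^ 2 ^ k = 1) →
      (∃ m : ℕ, 2 ≤ m ∧ ClassBound G (m + 1) (10 * 2 ^ (m - 1) - 1)) →
      ∀ S : Set G, S.Finite → Finite (Subgroup.closure S)) ∧
    (∀ k m : ℕ, 2 ≤ m →
      ((⊤ : Subgroup (B (m + 1) (2 ^ k))).lowerCentralSeries (10 * 2 ^ (m - 1) - 1) = ⊥ →
        InL.{u} (2 ^ k)) ∧
      ((⊤ : Subgroup (B (m + 1) (3 ^ k))).lowerCentralSeries ((21 * 3 ^ (m - 1) - 3) / 2) = ⊥ →
        InL.{u} (3 ^ k)) ∧
      ((⊤ : Subgroup (B (m + 1) (5 ^ k))).lowerCentralSeries ((33 * 3 ^ (m - 1) - 3) / 2) = ⊥ →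
        InL.{u} (5 ^ k))) := by
  have h1 : ∀ p m : ℕ, p.Prime → p ≠ 2 → 1 ≤ m → ∀ (G : Type u) [Group G],
      (∀ g : G, ∃ k : ℕ, g ^ p ^ k = 1) →
      ClassBound G (m + 1) (((6 * p + 3) * 3 ^ (m - 1) - 3) / 2) →
      InL.{u} p → ∀ S : Set G, S.Finite → Finite (Subgroup.closure S) := by
    intro p m hp h2 hm G _ hG hc hL
    refine conv (LF_of_rad (LF_of_all ?_))
    exact hL (G ⧸ rad G) (quot_exp (pow_mem_rad hp h2 hm hG hc))
  have h5 : ∀ (G : Type u) [Group G], (∀ g : G, ∃ k : ℕ, g ^ 5 ^ k = 1) →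
      (((∀ x y z : G, Finite (Subgroup.closure {x, y, z})) ∧ ClassBound G 2 15) ∨
        ∃ m : ℕ, 2 ≤ m ∧ ClassBound G (m + 1) ((33 * 3 ^ (m - 1) - 3) / 2)) →
      ∀ S : Set G, S.Finite → Finite (Subgroup.closure S) := by
    intro G _ hG h
    rcases h with ⟨h3, h2⟩ | ⟨m, hm, hc⟩
    · exact conv (five (pow_mem_rad (m := 1) Nat.prime_five (by norm_num) le_rfl hG h2) h3)
    · exact conv (five (pow_mem_rad (m := m) Nat.prime_five (by norm_num) (by omega) hG hc)
        (three_fin hm hc (per_of (by norm_num) hG)))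
  have h2 : ∀ (G : Type u) [Group G], (∀ g : G, ∃ k : ℕ, g ^ 2 ^ k = 1) →
      (∃ m : ℕ, 2 ≤ m ∧ ClassBound G (m + 1) (10 * 2 ^ (m - 1) - 1)) →
      ∀ S : Set G, S.Finite → Finite (Subgroup.closure S) := by
    rintro G _ hG ⟨m, hm, hc⟩
    exact conv (LF_two m (by omega) (GenCls.cls hc) hG)
  refine ⟨fun p m hp h2 hm G _ hG hc => ⟨⟨rad G, inferInstance, fun S hS hSR => ?_,
    pow_mem_rad hp h2 hm hG hc⟩, h1 p m hp h2 hm G hG hc⟩, fun p k m hp h2 hk hm hc => ⟨?_, ?_⟩,
    h5, h2, fun k m hm => ⟨?_, ?_, ?_⟩⟩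
  · have h := rad_LF (G := G) hS.toFinset (by rw [hS.coe_toFinset]; exact hSR)
    rw [hS.coe_toFinset] at h
    exact h
  · intro h G _ hG
    refine h G fun x => ?_
    rw [show p ^ k = p * p ^ (k - 1) by rw [← pow_succ']; congr 1; omega, pow_mul, hG, one_pow]
  · intro h G _ hG
    exact h1 p m hp h2 hm G (fun g => ⟨k, hG g⟩) (gen_of_free hc hG) h
  · intro hc G _ hG
    exact h2 G (fun g => ⟨k, hG g⟩) ⟨m, hm, gen_of_free hc hG⟩
  · intro hc G _ hG
    have hc' : (⊤ : Subgroup (B (m + 1) (3 ^ k))).lowerCentralSeries (SS.c3 m) = ⊥ := by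
      have e : SS.c3 m = (21 * 3 ^ (m - 1) - 3) / 2 := by
        obtain ⟨t, ht⟩ := Nat.exists_eq_add_of_le' (show 1 ≤ m by omega)
        rw [ht, SS.c3, Nat.add_sub_cancel, pow_succ]
        congr 2
        ring
      rw [e]; exact hc
    exact conv (LF_three m (by omega) (GenCls.cls (gen_of_free hc' hG)) (fun g => ⟨k, hG g⟩))
  · intro hc G _ hG
    exact h5 G (fun g => ⟨k, hG g⟩) (Or.inr ⟨m, hm, gen_of_free hc hG⟩)

end Pool.Agent.Results.MP_544bd1_al.PrimePowerClassBounds
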